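import Pool.Agent.Q285.WE.PathEq
set_option autoImplicit false

noncomputable section

namespace Pool.Agent.Results.MP_4bd310_co.PathMaximum

/-- The eccentricity of a vertex: the largest distance to a vertex of the graph. -/
def ecc {V : Type*} [Fintype V] (G : SimpleGraph V) (u : V) : ℕ :=
  Finset.univ.sup (fun v => G.dist u v)

/-- The radius: the least eccentricity. -/
def radius {V : Type*} [Fintype V] (G : SimpleGraph V) : ℕ := sInf (Set.range (ecc G))

/-- The Wiener index: half of the sum of the distances over all ordered pairs of vertices. -/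
def wiener {V : Type*} [Fintype V] (G : SimpleGraph V) : ℚ :=
  1 / 2 * ∑ u : V, ∑ v : V, (G.dist u v : ℚ)

/-- The total eccentricity. -/
def totalEcc {V : Type*} [Fintype V] (G : SimpleGraph V) : ℚ := ∑ u : V, (ecc G u : ℚ)

/-- The bound of the problem. -/
def bound (n : ℕ) : ℤ :=
  ⌊(n : ℚ) ^ 3 / 6 - 3 / 4 * (n : ℚ) ^ 2 + (n : ℚ) / 3 + 1 / 4⌋

/-- For every finite connected graph of radius at least four the difference of the Wiener index
and the total eccentricity is at most the value of the path, with equality exactly for the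
path. -/
theorem result : ∀ (V : Type*) [Fintype V] (G : SimpleGraph V), G.Connected → 4 ≤ radius G →
    wiener G - totalEcc G ≤ bound (Fintype.card V) ∧
    (wiener G - totalEcc G = bound (Fintype.card V) ↔
      Nonempty (G ≃g SimpleGraph.pathGraph (Fintype.card V))) := by
  classical
  intro V _ G hG hrad
  have hne := hG.nonempty
  have h4 : ∀ u, ∃ v, 4 ≤ G.dist u v := by
    intro u
    have h1 : radius G ≤ ecc G u := Nat.sInf_le ⟨u, rfl⟩
    exact Pool.Agent.Q285.WE.exists_far (by norm_num) (hrad.trans h1)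
  have hn := Pool.Agent.Q285.WE.eight_le hG h4
  obtain ⟨⟨x, y⟩, hxy⟩ := Finite.exists_max (fun p : V × V => G.dist p.1 p.2)
  have hmax : ∀ u v, G.dist u v ≤ G.dist x y := fun u v => hxy (u, v)
  have hbound := Pool.Agent.Q285.WE.floor_val (Fintype.card V) (by omega)
  have hW : 2 * (wiener G - totalEcc G) =
      ((((∑ u : V, ∑ v : V, G.dist u v : ℕ) : ℤ)
        - 2 * ((∑ u : V, Pool.Agent.Q285.WE.ec G u : ℕ) : ℤ) : ℤ) : ℚ) := by
    unfold wiener totalEcc
    push_cast
    have : ∀ u : V, (ecc G u : ℚ) = (Pool.Agent.Q285.WE.ec G u : ℚ) := fun u => rfl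
    simp only [this]
    ring
  have hB : 2 * ((bound (Fintype.card V) : ℤ) : ℚ)
      = ((Pool.Agent.Q285.WE.Ss (Fintype.card V) : ℤ) : ℚ) := by
    rw [← hbound]; unfold bound; push_cast; ring
  obtain ⟨m1, m2⟩ := Pool.Agent.Q285.WE.main_ineq hG h4 hmax
  refine ⟨?_, ?_, ?_⟩
  · have h1 : 2 * (wiener G - totalEcc G) ≤ 2 * ((bound (Fintype.card V) : ℤ) : ℚ) := by
      rw [hW, hB]; exact_mod_cast m1
    linarith
  · intro heq
    apply Pool.Agent.Q285.WE.iso_path hG (x := x) (y := y)
    have hDn : G.dist x y + 1 ≤ Fintype.card V := by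
      obtain ⟨p, hp⟩ := hG.exists_walk_length_eq_dist x y
      rw [← Pool.Agent.Q285.WE.Pset_card hG p hp, ← Finset.card_univ]
      exact Finset.card_le_card (Finset.subset_univ _)
    by_contra hne'
    have h2 := m2 (by omega)
    have h3 : 2 * (wiener G - totalEcc G) < 2 * ((bound (Fintype.card V) : ℤ) : ℚ) := by
      rw [hW, hB]; exact_mod_cast h2
    linarith
  · rintro ⟨φ⟩
    have h1 := Pool.Agent.Q285.WE.path_value hG φ (by omega)
    have h3 : 2 * (wiener G - totalEcc G) = 2 * ((bound (Fintype.card V) : ℤ) : ℚ) := by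
      rw [hW, hB]; exact_mod_cast h1
    linarith

end Pool.Agent.Results.MP_4bd310_co.PathMaximum
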